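import Pool.Agent.N728.QL.Def

/-!
# Task QL/QB (helper99): the off-diagonal terms for functions with small integrals

`t_QB : S_QBA → S_PS → S_MER → S_QB`.
-/

set_option autoImplicit false

namespace Pool.Agent.N99.QL

open Finset MeasureTheory Pool.Agent.N728.QL

/-! ## Part 1: arithmetic of the divisors -/

section



/-! ### the divisors of the product of the primes in an interval -/

lemma PP_pos (w y : ℕ) : 0 < PP w y :=
  Finset.prod_pos fun _ hp => (Finset.mem_filter.1 hp).2.pos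

lemma PP_pf (w y : ℕ) : (PP w y).primeFactors = (Ioc w y).filter Nat.Prime := by
  unfold PP
  exact Nat.primeFactors_prod fun p hp => (Finset.mem_filter.1 hp).2

lemma PP_sq (w y : ℕ) : Squarefree (PP w y) := by
  unfold PP
  refine Finset.squarefree_prod_of_pairwise_isCoprime (fun p hp q hq hpq => ?_)
    fun p hp => (Finset.mem_filter.1 hp).2.squarefree
  change IsRelPrime p q
  rw [← Nat.coprime_iff_isRelPrime]
  rw [Finset.mem_coe, Finset.mem_filter] at hp hq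
  exact (Nat.coprime_primes hp.2 hq.2).2 hpq

variable {w y : ℕ}

lemma mD {m : ℕ} : m ∈ (PP w y).divisors ↔ m ∣ PP w y := by
  rw [Nat.mem_divisors]
  exact ⟨fun h => h.1, fun h => ⟨h, (PP_pos w y).ne'⟩⟩

lemma D_pos {m : ℕ} (h : m ∣ PP w y) : 0 < m := Nat.pos_of_dvd_of_pos h (PP_pos w y)

lemma D_sq {m : ℕ} (h : m ∣ PP w y) : Squarefree m := (PP_sq w y).squarefree_of_dvd h

lemma D_prime {m p : ℕ} (h : m ∣ PP w y) (hp : p.Prime) (hpm : p ∣ m) : w < p ∧ p ≤ y := by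
  have : p ∈ (PP w y).primeFactors := Nat.mem_primeFactors.2 ⟨hp, hpm.trans h, (PP_pos w y).ne'⟩
  rw [PP_pf, mem_filter, mem_Ioc] at this
  exact this.1

lemma prime_D {p : ℕ} (hp : p.Prime) (h1 : w < p) (h2 : p ≤ y) : p ∣ PP w y := by
  have : p ∈ (PP w y).primeFactors := by
    rw [PP_pf, mem_filter, mem_Ioc]
    exact ⟨⟨h1, h2⟩, hp⟩
  exact Nat.dvd_of_mem_primeFactors this

lemma D_gt {m : ℕ} (h : m ∣ PP w y) (hm : m ≠ 1) : w < m := by
  obtain ⟨p, hp, hpm⟩ := Nat.exists_prime_and_dvd hm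
  exact (D_prime h hp hpm).1.trans_le (Nat.le_of_dvd (D_pos h) hpm)

lemma D_cop {a b : ℕ} (h : a * b ∣ PP w y) : Nat.Coprime a b := Nat.coprime_of_squarefree_mul (D_sq h)

lemma D_mul {a b : ℕ} (ha : a ∣ PP w y) (hb : b ∣ PP w y) (h : Nat.Coprime a b) : a * b ∣ PP w y :=
  Nat.Coprime.mul_dvd_of_dvd_of_dvd h ha hb

/-- `VW = φ(P)/P` -/
lemma VW_eq (w y : ℕ) : VW w y = (Nat.totient (PP w y) : ℝ) / (PP w y : ℝ) := by
  have h1 := Nat.totient_eq_mul_prod_factors (PP w y)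
  have h2 : (Nat.totient (PP w y) : ℝ) = (PP w y : ℝ) * ∏ p ∈ (PP w y).primeFactors, (1 - (p : ℝ)⁻¹) := by
    have h3 := congrArg (fun x : ℚ => (x : ℝ)) h1
    push_cast at h3
    exact h3
  rw [h2, PP_pf, mul_div_cancel_left₀]
  · unfold VW
    simp only [one_div]
  · exact_mod_cast (PP_pos w y).ne'

lemma tot_pos {m : ℕ} (h : m ∣ PP w y) : 0 < Nat.totient m := Nat.totient_pos.2 (D_pos h)

lemma VW_pos (w y : ℕ) : 0 < VW w y := by
  rw [VW_eq]
  have h1 : 0 < Nat.totient (PP w y) := tot_pos dvd_rfl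
  have h2 := PP_pos w y
  positivity

/-- the sum of `1/φ(M)` over the multiples `M ∣ P` of `l` -/
lemma sum_phi {l : ℕ} (hl : l ∣ PP w y) :
    ∑ M ∈ (PP w y).divisors.filter (fun M => l ∣ M), 1 / (Nat.totient M : ℝ) = (VW w y)⁻¹ / l := by
  set P := PP w y with hP
  have hPpos : 0 < P := PP_pos w y
  have hφ : (0 : ℝ) < Nat.totient P := by exact_mod_cast tot_pos (w := w) (y := y) dvd_rfl
  have hlpos := D_pos hl
  have e1 : ∀ M ∈ P.divisors.filter (fun M => l ∣ M), 1 / (Nat.totient M : ℝ) =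
      (Nat.totient (P / M) : ℝ) / Nat.totient P := by
    intro M hM
    rw [mem_filter, mD] at hM
    have h2 : P = M * (P / M) := (Nat.mul_div_cancel' hM.1).symm
    have h3 : Nat.Coprime M (P / M) := D_cop (w := w) (y := y) (by rw [← h2])
    have h4 : Nat.totient P = Nat.totient M * Nat.totient (P / M) := by
      conv_lhs => rw [h2]
      exact Nat.totient_mul h3
    have h5 : (0 : ℝ) < Nat.totient M := by exact_mod_cast tot_pos hM.1
    rw [h4]
    push_cast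
    have h6 : (Nat.totient (P / M) : ℝ) ≠ 0 := by
      intro h6
      rw [h4] at hφ
      push_cast at hφ
      rw [h6, mul_zero] at hφ
      exact lt_irrefl _ hφ
    field_simp
  rw [Finset.sum_congr rfl e1, ← Finset.sum_div]
  have e2 : ∑ M ∈ P.divisors.filter (fun M => l ∣ M), (Nat.totient (P / M) : ℝ) =
      ∑ e ∈ (P / l).divisors, (Nat.totient e : ℝ) := by
    refine Finset.sum_bij' (fun M _ => P / M) (fun e _ => P / e) ?_ ?_ ?_ ?_ ?_
    · intro M hM
      rw [mem_filter, mD] at hM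
      rw [Nat.mem_divisors]
      refine ⟨?_, (Nat.div_pos (Nat.le_of_dvd hPpos hl) hlpos).ne'⟩
      obtain ⟨⟨a, ha⟩, b, hb⟩ := hM
      have hb0 : 0 < b := by
        rcases Nat.eq_zero_or_pos b with h | h
        · rw [h, mul_zero] at hb; rw [hb, zero_mul] at ha; omega
        · exact h
      have ha' : P = l * b * a := by rw [← hb]; exact ha
      have e1 : P / M = a := by
        rw [hb, ha']
        exact Nat.mul_div_cancel_left _ (by positivity)
      have e2 : P / l = b * a := by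
        rw [ha', mul_assoc]
        exact Nat.mul_div_cancel_left _ hlpos
      rw [e1, e2]
      exact Dvd.intro_left b rfl
    · intro e he
      rw [Nat.mem_divisors] at he
      obtain ⟨c, hc⟩ := he.1
      obtain ⟨d, hd⟩ := hl
      have hd' : P / l = d := by rw [hd]; exact Nat.mul_div_cancel_left _ hlpos
      rw [hd'] at hc
      have he0 : 0 < e := by
        rcases Nat.eq_zero_or_pos e with h | h
        · rw [h, zero_mul] at hc; rw [hc, mul_zero] at hd; omega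
        · exact h
      have e1 : P / e = l * c := by
        rw [hd, hc, show l * (e * c) = e * (l * c) by ring]
        exact Nat.mul_div_cancel_left _ he0
      rw [mem_filter, e1, mD]
      refine ⟨⟨e, ?_⟩, Dvd.intro c rfl⟩
      rw [← hP, hd, hc]
      ring
    · intro M hM
      rw [mem_filter, mD] at hM
      exact Nat.div_div_self hM.1 hPpos.ne'
    · intro e he
      rw [Nat.mem_divisors] at he
      exact Nat.div_div_self (he.1.trans (Nat.div_dvd_of_dvd hl)) hPpos.ne'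
    · intro M _
      rfl
  rw [e2]
  have e3 : ∑ e ∈ (P / l).divisors, (Nat.totient e : ℝ) = (P : ℝ) / l := by
    have h1 := Nat.sum_totient (P / l)
    have h2 : ((∑ e ∈ (P / l).divisors, Nat.totient e : ℕ) : ℝ) = ((P / l : ℕ) : ℝ) := by rw [h1]
    push_cast at h2
    rw [h2, Nat.cast_div hl (by exact_mod_cast hlpos.ne')]
  rw [e3, VW_eq, ← hP]
  have h7 : (0 : ℝ) < P := by exact_mod_cast hPpos
  have h8 : (0 : ℝ) < l := by exact_mod_cast hlpos
  field_simp

lemma sum_inv_dvd {l : ℕ} (hl : l ∣ PP w y) :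
    ∑ M ∈ (PP w y).divisors.filter (fun M => l ∣ M), 1 / (M : ℝ) ≤ (VW w y)⁻¹ / l := by
  rw [← sum_phi hl]
  refine Finset.sum_le_sum fun M hM => ?_
  rw [mem_filter, mD] at hM
  have h1 : (0 : ℝ) < Nat.totient M := by exact_mod_cast tot_pos hM.1
  exact one_div_le_one_div_of_le h1 (by exact_mod_cast Nat.totient_le M)

lemma sum_inv (w y : ℕ) : ∑ M ∈ (PP w y).divisors, 1 / (M : ℝ) ≤ (VW w y)⁻¹ := by
  have h := sum_inv_dvd (w := w) (y := y) (l := 1) (one_dvd _)
  simpa using h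

/-- pairs of divisors and triples of divisors -/
lemma sum_pairs (F : ℕ → ℕ → ℕ → ℝ) :
    ∑ m ∈ (PP w y).divisors, ∑ m' ∈ (PP w y).divisors, F m m' (Nat.lcm m m') =
      ∑ d ∈ (PP w y).divisors, ∑ m₁ ∈ (PP w y).divisors, ∑ m₂ ∈ (PP w y).divisors,
        if d * m₁ * m₂ ∣ PP w y then F (d * m₁) (d * m₂) (d * m₁ * m₂) else 0 := by
  classical
  set D := (PP w y).divisors with hD
  have eL : ∑ m ∈ D, ∑ m' ∈ D, F m m' (Nat.lcm m m') =
      ∑ x ∈ D ×ˢ D, F x.1 x.2 (Nat.lcm x.1 x.2) :=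
    (Finset.sum_product (s := D) (t := D) (f := fun x => F x.1 x.2 (Nat.lcm x.1 x.2))).symm
  have eR : ∑ d ∈ D, ∑ m₁ ∈ D, ∑ m₂ ∈ D,
        (if d * m₁ * m₂ ∣ PP w y then F (d * m₁) (d * m₂) (d * m₁ * m₂) else 0) =
      ∑ x ∈ (D ×ˢ (D ×ˢ D)).filter (fun x => x.1 * x.2.1 * x.2.2 ∣ PP w y),
        F (x.1 * x.2.1) (x.1 * x.2.2) (x.1 * x.2.1 * x.2.2) := by
    rw [Finset.sum_filter, Finset.sum_product]
    refine Finset.sum_congr rfl fun d _ => ?_
    rw [Finset.sum_product]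
  rw [eL, eR]
  refine Finset.sum_bij' (fun x _ => (Nat.gcd x.1 x.2, (x.1 / Nat.gcd x.1 x.2, x.2 / Nat.gcd x.1 x.2)))
    (fun x _ => (x.1 * x.2.1, x.1 * x.2.2)) ?_ ?_ ?_ ?_ ?_
  · rintro ⟨m, m'⟩ hx
    rw [mem_product, hD, mD, mD] at hx
    obtain ⟨h1, h2⟩ := hx
    simp only at h1 h2
    have hg1 : Nat.gcd m m' ∣ m := Nat.gcd_dvd_left _ _
    have hg2 : Nat.gcd m m' ∣ m' := Nat.gcd_dvd_right _ _
    rw [mem_filter, mem_product, mem_product, hD, mD, mD, mD]
    simp only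
    refine ⟨⟨hg1.trans h1, (Nat.div_dvd_of_dvd hg1).trans h1, (Nat.div_dvd_of_dvd hg2).trans h2⟩, ?_⟩
    rw [Nat.mul_div_cancel' hg1, ← Nat.mul_div_assoc _ hg2]
    exact Nat.lcm_dvd h1 h2
  · rintro ⟨d, m₁, m₂⟩ hx
    rw [mem_filter] at hx
    have h := hx.2
    simp only at h
    rw [mem_product, hD, mD, mD]
    simp only
    refine ⟨(Dvd.intro _ rfl).trans h, ?_⟩
    refine Dvd.dvd.trans ?_ h
    exact ⟨m₁, by ring⟩
  · rintro ⟨m, m'⟩ hx
    simp only
    rw [Nat.mul_div_cancel' (Nat.gcd_dvd_left _ _), Nat.mul_div_cancel' (Nat.gcd_dvd_right _ _)]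
  · rintro ⟨d, m₁, m₂⟩ hx
    rw [mem_filter, mem_product, hD, mD] at hx
    obtain ⟨⟨h1, -⟩, h⟩ := hx
    simp only at h h1
    have hd := D_pos h1
    have hc : Nat.Coprime m₁ m₂ := by
      refine D_cop (w := w) (y := y) (Dvd.dvd.trans ?_ h)
      exact ⟨d, by ring⟩
    have hg : Nat.gcd (d * m₁) (d * m₂) = d := by
      rw [Nat.gcd_mul_left, hc.gcd_eq_one, mul_one]
    simp only
    rw [hg, Nat.mul_div_cancel_left _ hd, Nat.mul_div_cancel_left _ hd]
  · rintro ⟨m, m'⟩ hx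
    simp only
    rw [Nat.mul_div_cancel' (Nat.gcd_dvd_left _ _), Nat.mul_div_cancel' (Nat.gcd_dvd_right _ _)]
    rw [← Nat.mul_div_assoc _ (Nat.gcd_dvd_right _ _)]
    rfl

/-- a divisor and one of its prime factors -/
lemma sum_prime {c : ℕ} (G : ℕ → ℕ → ℝ) :
    ∑ m ∈ (PP w y).divisors.filter (fun m => c * m ∣ PP w y), ∑ p ∈ m.primeFactors, G m p =
      ∑ n ∈ (PP w y).divisors.filter (fun n => c * n ∣ PP w y),
        ∑ p ∈ ((Ioc w y).filter Nat.Prime).filter (fun p => c * n * p ∣ PP w y), G (n * p) p := by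
  classical
  set D := (PP w y).divisors with hD
  set S := (Ioc w y).filter Nat.Prime with hS
  have eL : ∑ m ∈ D.filter (fun m => c * m ∣ PP w y), ∑ p ∈ m.primeFactors, G m p =
      ∑ x ∈ (D ×ˢ S).filter (fun x => c * x.1 ∣ PP w y ∧ x.2 ∣ x.1), G x.1 x.2 := by
    rw [Finset.sum_filter, Finset.sum_filter, Finset.sum_product]
    refine Finset.sum_congr rfl fun m hm => ?_
    rw [hD, mD] at hm
    split_ifs with h1
    · simp only [h1, true_and]
      rw [← Finset.sum_filter]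
      refine Finset.sum_congr ?_ fun _ _ => rfl
      ext p
      rw [Nat.mem_primeFactors, mem_filter, hS, mem_filter, mem_Ioc]
      constructor
      · rintro ⟨h2, h3, -⟩
        exact ⟨⟨D_prime hm h2 h3, h2⟩, h3⟩
      · rintro ⟨⟨-, h2⟩, h3⟩
        exact ⟨h2, h3, (D_pos hm).ne'⟩
    · simp [h1]
  have eR : ∑ n ∈ D.filter (fun n => c * n ∣ PP w y),
        ∑ p ∈ S.filter (fun p => c * n * p ∣ PP w y), G (n * p) p =
      ∑ x ∈ (D ×ˢ S).filter (fun x => c * x.1 * x.2 ∣ PP w y), G (x.1 * x.2) x.2 := by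
    rw [Finset.sum_filter, Finset.sum_filter, Finset.sum_product]
    refine Finset.sum_congr rfl fun n _ => ?_
    rw [Finset.sum_filter]
    split_ifs with h1
    · rfl
    · symm
      refine Finset.sum_eq_zero fun p _ => if_neg fun h2 => h1 ?_
      exact (Dvd.intro _ rfl).trans h2
  rw [eL, eR]
  refine Finset.sum_bij' (fun x _ => (x.1 / x.2, x.2)) (fun x _ => (x.1 * x.2, x.2)) ?_ ?_ ?_ ?_ ?_
  · rintro ⟨m, p⟩ hx
    rw [mem_filter, mem_product, hD, mD] at hx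
    obtain ⟨⟨h1, h2⟩, h3, h4⟩ := hx
    simp only at h1 h2 h3 h4
    rw [mem_filter, mem_product, hD, mD]
    simp only
    refine ⟨⟨(Nat.div_dvd_of_dvd h4).trans h1, h2⟩, ?_⟩
    rw [mul_assoc, Nat.div_mul_cancel h4]
    exact h3
  · rintro ⟨n, p⟩ hx
    rw [mem_filter, mem_product] at hx
    obtain ⟨⟨h1, h2⟩, h3⟩ := hx
    simp only at h1 h2 h3
    rw [mem_filter, mem_product, hD, mD]
    simp only
    have h4 : c * (n * p) ∣ PP w y := by rw [← mul_assoc]; exact h3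
    exact ⟨⟨(Dvd.intro_left _ rfl).trans h4, h2⟩, h4, Dvd.intro_left _ rfl⟩
  · rintro ⟨m, p⟩ hx
    rw [mem_filter] at hx
    simp only
    rw [Nat.div_mul_cancel hx.2.2]
  · rintro ⟨n, p⟩ hx
    rw [mem_filter, mem_product, hS, mem_filter] at hx
    simp only
    rw [Nat.mul_div_cancel _ hx.1.2.2.pos]
  · rintro ⟨m, p⟩ hx
    rw [mem_filter] at hx
    simp only
    rw [Nat.div_mul_cancel hx.2.2]

/-- `∑_{p ∣ m} log p = log m` for squarefree `m` -/
lemma sum_log {m : ℕ} (h : m ∣ PP w y) : ∑ p ∈ m.primeFactors, Real.log p = Real.log m := by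
  have h1 := Nat.prod_primeFactors_of_squarefree (D_sq h)
  conv_rhs => rw [← h1]
  push_cast
  rw [Real.log_prod]
  intro p hp
  exact_mod_cast (Nat.prime_of_mem_primeFactors hp).ne_zero

end

/-! ## Part 2: the autocorrelation -/

section



/-- the autocorrelation -/
noncomputable def kk (g : ℝ → ℝ) (τ : ℝ) : ℝ := ∫ s : ℝ, g s * g (s + τ)

/-- the hypotheses on `g` -/
structure GG (g : ℝ → ℝ) (L s0 δ : ℝ) : Prop where
  L1 : 1 ≤ L
  bd : ∀ s, |g s| ≤ 2
  lip : ∀ s s', |g s - g s'| ≤ L * |s - s'|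
  supp : ∀ s, ¬ (s0 ≤ s ∧ s ≤ s0 + 10) → g s = 0
  int : ∀ s1 s2 : ℝ, s1 ≤ s2 → |∫ s in s1..s2, g s| ≤ δ

namespace GG

variable {g : ℝ → ℝ} {L s0 δ : ℝ} (h : GG g L s0 δ)
include h

lemma cont : Continuous g := by
  have hL : 0 ≤ L := by linarith [h.L1]
  have : LipschitzWith ⟨L, hL⟩ g := LipschitzWith.of_dist_le_mul fun x y => by
    rw [Real.dist_eq, Real.dist_eq]
    exact h.lip x y
  exact this.continuous

lemma eq_int (f : ℝ → ℝ) : ∫ s : ℝ, g s * f s = ∫ s in s0..(s0 + 10), g s * f s := by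
  rw [intervalIntegral.integral_of_le (by linarith), ← integral_Icc_eq_integral_Ioc]
  symm
  refine setIntegral_eq_integral_of_forall_compl_eq_zero fun s hs => ?_
  rw [h.supp s (fun h1 => hs ⟨h1.1, h1.2⟩), zero_mul]

lemma kk_bd (τ : ℝ) : |kk g τ| ≤ 40 := by
  unfold kk
  rw [h.eq_int]
  have h1 : ∀ x ∈ Set.uIoc s0 (s0 + 10), ‖g x * g (x + τ)‖ ≤ 4 := by
    intro x _
    rw [norm_mul, Real.norm_eq_abs, Real.norm_eq_abs]
    have := h.bd x
    have := h.bd (x + τ)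
    nlinarith [abs_nonneg (g x), abs_nonneg (g (x + τ))]
  have h2 := intervalIntegral.norm_integral_le_of_norm_le_const h1
  rw [Real.norm_eq_abs] at h2
  refine h2.trans ?_
  rw [show s0 + 10 - s0 = 10 by ring]
  norm_num

lemma kk_lip (τ τ' : ℝ) : |kk g τ - kk g τ'| ≤ 20 * L * |τ - τ'| := by
  unfold kk
  rw [h.eq_int, h.eq_int]
  have hc := h.cont
  have i1 : ∀ t : ℝ, IntervalIntegrable (fun s => g s * g (s + t)) volume s0 (s0 + 10) :=
    fun t => (hc.mul (hc.comp (continuous_id.add continuous_const))).intervalIntegrable _ _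
  rw [← intervalIntegral.integral_sub (i1 τ) (i1 τ')]
  have h1 : ∀ x ∈ Set.uIoc s0 (s0 + 10), ‖g x * g (x + τ) - g x * g (x + τ')‖ ≤
      2 * L * |τ - τ'| := by
    intro x _
    rw [← mul_sub, norm_mul, Real.norm_eq_abs, Real.norm_eq_abs]
    have e1 := h.bd x
    have e2 := h.lip (x + τ) (x + τ')
    rw [show x + τ - (x + τ') = τ - τ' by ring] at e2
    calc |g x| * |g (x + τ) - g (x + τ')| ≤ 2 * (L * |τ - τ'|) :=
          mul_le_mul e1 e2 (abs_nonneg _) (by norm_num)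
      _ = 2 * L * |τ - τ'| := by ring
  have h2 := intervalIntegral.norm_integral_le_of_norm_le_const h1
  rw [Real.norm_eq_abs] at h2
  refine h2.trans (le_of_eq ?_)
  rw [show s0 + 10 - s0 = 10 by ring, show |(10 : ℝ)| = 10 by norm_num]
  ring

lemma kk_cont : Continuous (kk g) := by
  have hL : 0 ≤ 20 * L := by linarith [h.L1]
  have : LipschitzWith ⟨20 * L, hL⟩ (kk g) := LipschitzWith.of_dist_le_mul fun x y => by
    rw [Real.dist_eq, Real.dist_eq]
    exact h.kk_lip x y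
  exact this.continuous

lemma kk_int {a b : ℝ} (hab : a ≤ b) : |∫ t in a..b, kk g t| ≤ 20 * δ := by
  have hc := h.cont
  have e1 : ∀ t, kk g t = ∫ s in s0..(s0 + 10), g s * g (s + t) := fun t => by
    unfold kk
    rw [h.eq_int]
  simp_rw [e1]
  rw [intervalIntegral_intervalIntegral_swap (F := fun t s => g s * g (s + t))]
  · have h1 : ∀ x ∈ Set.uIoc s0 (s0 + 10), ‖∫ t in a..b, g x * g (x + t)‖ ≤ 2 * δ := by
      intro x _
      rw [intervalIntegral.integral_const_mul, norm_mul, Real.norm_eq_abs, Real.norm_eq_abs,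
        intervalIntegral.integral_comp_add_left]
      exact mul_le_mul (h.bd x) (h.int _ _ (by linarith)) (abs_nonneg _) (by norm_num)
    have h2 := intervalIntegral.norm_integral_le_of_norm_le_const h1
    rw [Real.norm_eq_abs] at h2
    refine h2.trans (le_of_eq ?_)
    rw [show s0 + 10 - s0 = 10 by ring, show |(10 : ℝ)| = 10 by norm_num]
    ring
  · have hF : Continuous (Function.uncurry fun t s : ℝ => g s * g (s + t)) :=
      (hc.comp continuous_snd).mul (hc.comp (continuous_snd.add continuous_fst))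
    have hK : IsCompact (Set.uIcc a b ×ˢ Set.uIcc s0 (s0 + 10)) := isCompact_uIcc.prod isCompact_uIcc
    refine (hF.continuousOn.integrableOn_compact hK).mono_set ?_
    exact Set.prod_mono Set.uIoc_subset_uIcc Set.uIoc_subset_uIcc

lemma hcs : HasCompactSupport g := by
  refine HasCompactSupport.of_support_subset_isCompact (isCompact_Icc (a := s0) (b := s0 + 10)) ?_
  intro s hs
  by_contra h1
  exact hs (h.supp s fun h2 => h1 ⟨h2.1, h2.2⟩)

lemma sq_int (D : Finset ℕ) : ∫ s : ℝ, (∑ m ∈ D, g (s - Real.log m)) ^ 2 =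
    ∑ m ∈ D, ∑ m' ∈ D, kk g (Real.log m - Real.log m') := by
  have hc := h.cont
  have e1 : ∀ s : ℝ, (∑ m ∈ D, g (s - Real.log m)) ^ 2 =
      ∑ m ∈ D, ∑ m' ∈ D, g (s - Real.log m) * g (s - Real.log m') := by
    intro s
    rw [sq, Finset.sum_mul_sum]
  simp_rw [e1]
  have i1 : ∀ a b : ℝ, Integrable (fun s => g (s - a) * g (s - b)) := by
    intro a b
    have c1 : Continuous (fun s => g (s - a) * g (s - b)) :=
      (hc.comp (continuous_id.sub continuous_const)).mul (hc.comp (continuous_id.sub continuous_const))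
    refine c1.integrable_of_hasCompactSupport ?_
    refine HasCompactSupport.of_support_subset_isCompact
      (isCompact_Icc (a := s0 + a) (b := s0 + 10 + a)) ?_
    intro s hs
    by_contra h1
    refine hs ?_
    change g (s - a) * g (s - b) = 0
    rw [h.supp (s - a) fun h2 => h1 ⟨by linarith [h2.1], by linarith [h2.2]⟩, zero_mul]
  rw [integral_finsetSum _ fun m _ => integrable_finsetSum _ fun m' _ => i1 _ _]
  refine Finset.sum_congr rfl fun m _ => ?_
  rw [integral_finsetSum _ fun m' _ => i1 _ _]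
  refine Finset.sum_congr rfl fun m' _ => ?_
  unfold kk
  have e2 := integral_sub_right_eq_self (μ := (volume : Measure ℝ))
    (fun s => g s * g (s + (Real.log m - Real.log m'))) (Real.log m)
  rw [← e2]
  refine integral_congr_ae (Filter.Eventually.of_forall fun s => ?_)
  simp only
  rw [show s - Real.log m + (Real.log m - Real.log m') = s - Real.log m' by ring]

/-- the integral against a decreasing weight -/
lemma kk_wt {c u a b : ℝ} (hab : a ≤ b) (hu : 0 < u + a) (hδ : 0 ≤ δ) :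
    |∫ t in a..b, kk g (c - t) / (u + t)| ≤ 20 * δ / (u + a) := by
  have hkc := h.kk_cont
  have hkc' : Continuous fun t => kk g (c - t) := hkc.comp (continuous_const.sub continuous_id)
  set F : ℝ → ℝ := fun t => ∫ s in a..t, kk g (c - s) with hF
  have hFd : ∀ t, HasDerivAt F (kk g (c - t)) t := fun t =>
    intervalIntegral.integral_hasDerivAt_right (hkc'.intervalIntegrable _ _)
      hkc'.stronglyMeasurable.stronglyMeasurableAtFilter hkc'.continuousAt
  have hFb : ∀ t, a ≤ t → |F t| ≤ 20 * δ := by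
    intro t ht
    simp only [hF]
    rw [intervalIntegral.integral_comp_sub_left]
    exact h.kk_int (by linarith)
  have hpos : ∀ t ∈ Set.uIcc a b, 0 < u + t := by
    intro t ht
    rw [Set.uIcc_of_le hab] at ht
    linarith [ht.1]
  have hud : ∀ t ∈ Set.uIcc a b, HasDerivAt (fun t => (u + t)⁻¹) (-1 / (u + t) ^ 2) t := by
    intro t ht
    have h1 : HasDerivAt (fun t => u + t) 1 t := (hasDerivAt_id t).const_add u
    exact h1.inv (hpos t ht).ne'
  have hcu : ContinuousOn (fun t => -1 / (u + t) ^ 2) (Set.uIcc a b) := by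
    refine ContinuousOn.div continuousOn_const (by fun_prop) fun t ht => ?_
    have := hpos t ht
    positivity
  have h1 := intervalIntegral.integral_mul_deriv_eq_deriv_mul (a := a) (b := b)
    (u := fun t => (u + t)⁻¹) (v := F) (u' := fun t => -1 / (u + t) ^ 2) (v' := fun t => kk g (c - t))
    hud (fun t _ => hFd t) hcu.intervalIntegrable (hkc'.intervalIntegrable _ _)
  have h2 : ∫ t in a..b, kk g (c - t) / (u + t) = ∫ t in a..b, (u + t)⁻¹ * kk g (c - t) :=
    intervalIntegral.integral_congr fun t _ => by rw [div_eq_mul_inv, mul_comm]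
  have hFa : F a = 0 := by simp [hF]
  rw [h2, h1, hFa, mul_zero, sub_zero]
  have hb : 0 < u + b := by linarith
  -- the remaining integral
  have hint : ∫ t in a..b, 1 / (u + t) ^ 2 = (u + a)⁻¹ - (u + b)⁻¹ := by
    have h3 : ∀ t ∈ Set.uIcc a b, HasDerivAt (fun t => -(u + t)⁻¹) (1 / (u + t) ^ 2) t := by
      intro t ht
      have h5 := (hud t ht).fun_neg
      rwa [show -(-1 / (u + t) ^ 2) = 1 / (u + t) ^ 2 by ring] at h5
    rw [intervalIntegral.integral_eq_sub_of_hasDerivAt h3]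
    · ring
    · refine ContinuousOn.intervalIntegrable ?_
      refine ContinuousOn.div continuousOn_const (by fun_prop) fun t ht => ?_
      have := hpos t ht
      positivity
  have h4 : |∫ t in a..b, -1 / (u + t) ^ 2 * F t| ≤ 20 * δ * ((u + a)⁻¹ - (u + b)⁻¹) := by
    rw [← hint, ← intervalIntegral.integral_const_mul, ← Real.norm_eq_abs]
    refine intervalIntegral.norm_integral_le_of_norm_le hab ?_ ?_
    · refine Filter.Eventually.of_forall fun t ht => ?_
      have h5 : 0 < u + t := by linarith [ht.1]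
      rw [norm_mul, Real.norm_eq_abs, Real.norm_eq_abs, abs_div, abs_neg, abs_one,
        abs_of_pos (by positivity : 0 < (u + t) ^ 2), mul_comm]
      exact mul_le_mul_of_nonneg_right (hFb t ht.1.le) (by positivity)
    · refine ContinuousOn.intervalIntegrable ?_
      refine ContinuousOn.mul continuousOn_const ?_
      refine ContinuousOn.div continuousOn_const (by fun_prop) fun t ht => ?_
      have := hpos t ht
      positivity
  have h6 : |(u + b)⁻¹ * F b| ≤ (u + b)⁻¹ * (20 * δ) := by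
    rw [abs_mul, abs_of_pos (inv_pos.2 hb)]
    exact mul_le_mul_of_nonneg_left (hFb b hab) (inv_pos.2 hb).le
  calc |(u + b)⁻¹ * F b - ∫ t in a..b, -1 / (u + t) ^ 2 * F t|
      ≤ |(u + b)⁻¹ * F b| + |∫ t in a..b, -1 / (u + t) ^ 2 * F t| := abs_sub _ _
    _ ≤ (u + b)⁻¹ * (20 * δ) + 20 * δ * ((u + a)⁻¹ - (u + b)⁻¹) := add_le_add h6 h4
    _ = 20 * δ / (u + a) := by
      field_simp
      ring

end GG

end

/-! ## Part 3: the sums over the primes -/

section



lemma jw_iff {ρ : ℝ} (hρ : 1 < ρ) {m j : ℕ} (hm : 1 ≤ m) :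
    jw ρ m = j ↔ ρ ^ j ≤ m ∧ (m : ℝ) < ρ ^ (j + 1) := by
  have hl : 0 < Real.log ρ := Real.log_pos hρ
  have hm' : (1 : ℝ) ≤ m := by exact_mod_cast hm
  have hm0 : (0 : ℝ) < m := by linarith
  have h0 : 0 ≤ Real.log m / Real.log ρ := div_nonneg (Real.log_nonneg hm') hl.le
  have hρ0 : 0 < ρ := by linarith
  unfold jw
  rw [Nat.floor_eq_iff h0, le_div_iff₀ hl, div_lt_iff₀ hl, ← Real.log_pow,
    Real.log_le_log_iff (by positivity) hm0]
  have e : ((j : ℝ) + 1) * Real.log ρ = Real.log (ρ ^ (j + 1)) := by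
    rw [Real.log_pow]
    push_cast
    ring
  rw [e, Real.log_lt_log_iff hm0 (by positivity)]

/-- the window as an interval of integers -/
lemma window {ρ : ℝ} (hρ : 1 < ρ) (hρ2 : ρ ≤ 2) {w y D E : ℕ} (hw : 1 ≤ w) (hD : 1 ≤ D)
    (hE : 1 ≤ E) : ∃ N1 N2 : ℕ, w ≤ N1 ∧ N1 ≤ N2 ∧ N2 ≤ 4 * N1 ∧ (D : ℝ) ≤ 4 * E * N1 ∧
      ∀ p : ℕ, (w < p ∧ p ≤ y ∧ jw ρ D = jw ρ (E * p)) ↔ (N1 < p ∧ p ≤ N2) := by
  obtain ⟨j, hj⟩ : ∃ j, j = jw ρ D := ⟨_, rfl⟩
  have hρ0 : 0 < ρ := by linarith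
  have hE' : (0 : ℝ) < E := by exact_mod_cast hE
  have hDj := (jw_iff hρ hD).1 hj.symm
  set x1 : ℝ := ρ ^ j / E with hx1
  set x2 : ℝ := ρ ^ (j + 1) / E with hx2
  have x1p : 0 < x1 := by positivity
  have x2p : 0 < x2 := by positivity
  have hx12 : x2 = ρ * x1 := by rw [hx1, hx2, pow_succ]; ring
  have c1 : 1 ≤ ⌈x1⌉₊ := Nat.one_le_ceil_iff.2 x1p
  have c2 : 1 ≤ ⌈x2⌉₊ := Nat.one_le_ceil_iff.2 x2p
  have c3 : x1 ≤ ⌈x1⌉₊ := Nat.le_ceil x1
  have c12 : ⌈x2⌉₊ ≤ 2 * ⌈x1⌉₊ := by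
    rw [Nat.ceil_le]
    push_cast
    rw [hx12]
    nlinarith
  obtain ⟨N1, hN1⟩ : ∃ N1, N1 = max w (⌈x1⌉₊ - 1) := ⟨_, rfl⟩
  obtain ⟨N2, hN2⟩ : ∃ N2, N2 = max N1 (min y (⌈x2⌉₊ - 1)) := ⟨_, rfl⟩
  refine ⟨N1, N2, by omega, by omega, by omega, ?_, ?_⟩
  · have h1 : (⌈x1⌉₊ : ℝ) ≤ 2 * N1 := by
      have : ⌈x1⌉₊ ≤ 2 * N1 := by omega
      exact_mod_cast this
    have h2 : ρ ^ j = E * x1 := by rw [hx1]; field_simp
    calc (D : ℝ) ≤ ρ ^ (j + 1) := hDj.2.le
      _ = ρ * (E * x1) := by rw [pow_succ, h2]; ring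
      _ ≤ 2 * (E * (2 * N1)) := by
        have h3 : E * x1 ≤ E * (2 * N1) := mul_le_mul_of_nonneg_left (c3.trans h1) hE'.le
        have h4 : 0 ≤ E * x1 := by positivity
        nlinarith
      _ = 4 * E * N1 := by ring
  · intro p
    rcases Nat.eq_zero_or_pos p with hp | hp
    · subst hp
      constructor
      · rintro ⟨h1, -⟩; omega
      · rintro ⟨h1, -⟩; omega
    · have hEp : 1 ≤ E * p := Nat.mul_pos hE hp
      have e1 : jw ρ D = jw ρ (E * p) ↔ ⌈x1⌉₊ ≤ p ∧ p < ⌈x2⌉₊ := by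
        rw [← hj, eq_comm, jw_iff hρ hEp, Nat.ceil_le, Nat.lt_ceil, hx1, hx2, div_le_iff₀ hE',
          lt_div_iff₀ hE']
        push_cast
        rw [mul_comm (p : ℝ)]
      rw [e1]
      omega

/-- the class of the primes -/
lemma class_ex {E q α : ℕ} (hq : 1 ≤ q) (hE : Nat.Coprime E q) (hα : Nat.Coprime α q) :
    ∃ β : ℕ, Nat.Coprime β q ∧ ∀ p : ℕ, E * p ≡ α [MOD q] ↔ p ≡ β [MOD q] := by
  obtain ⟨e, he⟩ : ∃ e, E * e ≡ 1 [MOD q] := by
    rcases Nat.lt_or_ge 1 q with h | h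
    · obtain ⟨e, -, he⟩ := Nat.exists_mul_mod_eq_one_of_coprime hE h
      exact ⟨e, by rw [Nat.ModEq, he, Nat.mod_eq_of_lt h]⟩
    · have : q = 1 := by omega
      subst this
      exact ⟨0, Nat.modEq_one⟩
  have hcop : Nat.Coprime e q := by
    have h1 : Nat.gcd (E * e) q = Nat.gcd 1 q := Nat.ModEq.gcd_eq he
    rw [Nat.gcd_one_left] at h1
    exact Nat.Coprime.coprime_mul_left h1
  refine ⟨e * α, Nat.Coprime.mul_left hcop hα, fun p => ⟨fun h => ?_, fun h => ?_⟩⟩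
  · refine Nat.ModEq.cancel_left_of_coprime (c := E) (by rw [Nat.gcd_comm]; exact hE) ?_
    calc E * p ≡ α [MOD q] := h
      _ = 1 * α := (one_mul _).symm
      _ ≡ E * e * α [MOD q] := (he.symm).mul_right α
      _ = E * (e * α) := mul_assoc _ _ _
  · calc E * p ≡ E * (e * α) [MOD q] := h.mul_left E
      _ = E * e * α := (mul_assoc _ _ _).symm
      _ ≡ 1 * α [MOD q] := he.mul_right α
      _ = α := one_mul _

lemma D_cop_q {w y m q : ℕ} (hm : m ∣ PP w y) (hq : 1 ≤ q) (hqw : q ≤ w) : Nat.Coprime m q := by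
  by_contra h
  obtain ⟨p, hp, h1, h2⟩ := Nat.Prime.not_coprime_iff_dvd.1 h
  have h3 := (D_prime hm hp h1).1
  have h4 := Nat.le_of_dvd (by omega) h2
  omega

open Classical in
/-- the kernel -/
noncomputable def TT (g : ℝ → ℝ) (ρ : ℝ) (q α m m' : ℕ) : ℝ :=
  if jw ρ m = jw ρ m' ∧ m ≡ α [MOD q] ∧ m' ≡ α [MOD q] then kk g (Real.log m - Real.log m') else 0

lemma TT_bd {g : ℝ → ℝ} {L s0 δ : ℝ} (h : GG g L s0 δ) (ρ : ℝ) (q α m m' : ℕ) :
    |TT g ρ q α m m'| ≤ 40 := by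
  unfold TT
  split_ifs
  · exact h.kk_bd _
  · rw [abs_zero]; norm_num

/-- the conclusion of PS -/
def PSw (q A w : ℕ) (C : ℝ) : Prop := ∀ N1 N2 β : ℕ, w ≤ N1 → N1 ≤ N2 →
  N2 ≤ 4 * N1 → Nat.Coprime β q → ∀ (Ψ : ℝ → ℝ) (M1 L1 : ℝ), 0 ≤ L1 →
  (∀ s, Real.log N1 ≤ s → s ≤ Real.log N2 → |Ψ s| ≤ M1) →
  (∀ s s', Real.log N1 ≤ s → s ≤ Real.log N2 → Real.log N1 ≤ s' → s' ≤ Real.log N2 →
    |Ψ s - Ψ s'| ≤ L1 * |s - s'|) →
  |∑ p ∈ (Ioc N1 N2).filter (fun p => p.Prime ∧ p ≡ β [MOD q]), Real.log p / p * Ψ (Real.log p) -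
    (1 / (Nat.totient q : ℝ)) * ∫ s in (Real.log N1)..(Real.log N2), Ψ s| ≤
      C * (M1 + L1) / Real.log w ^ A

lemma one_le_log {w : ℕ} (hw : 16 ≤ w) : 1 ≤ Real.log w := by
  rw [Real.le_log_iff_exp_le (by positivity)]
  have h1 := Real.exp_one_lt_d9
  have h2 : (16 : ℝ) ≤ w := by exact_mod_cast hw
  linarith

/-- the sum over all primes of the window -/
lemma inner_all {g : ℝ → ℝ} {L s0 δ ρ : ℝ} (h : GG g L s0 δ) (hδ : 0 ≤ δ) (hρ : 1 < ρ)
    (hρ2 : ρ ≤ 2) {q α w y A d m₁ n : ℕ} {C : ℝ} (hC : 0 ≤ C) (hq : 1 ≤ q) (hqw : q ≤ w) (hw : 16 ≤ w)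
    (hPS : PSw q A w C) (hN : d * m₁ * n ∣ PP w y) (hm : m₁ ≠ 1) :
    |∑ p ∈ (Ioc w y).filter Nat.Prime, Real.log p / (p * Real.log ((n * p : ℕ) : ℝ)) *
      TT g ρ q α (d * m₁) (d * (n * p))| ≤
      40 * δ / Real.log m₁ + C * (80 + 20 * L) / Real.log w ^ A := by
  classical
  have hL1 := h.L1
  have hlw : 1 ≤ Real.log w := one_le_log hw
  have hdm : d * m₁ ∣ PP w y := (Dvd.intro _ rfl).trans hN
  have hd : d ∣ PP w y := (Dvd.intro _ rfl).trans hdm
  have hm1 : m₁ ∣ PP w y := (Dvd.intro_left _ rfl).trans hdm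
  have hn : n ∣ PP w y := (Dvd.intro_left _ rfl).trans hN
  have hdn : d * n ∣ PP w y := by
    refine Dvd.dvd.trans ?_ hN
    exact ⟨m₁, by ring⟩
  have hm1w : w < m₁ := D_gt hm1 hm
  have d0 := D_pos hd
  have n0 := D_pos hn
  have m0 := D_pos hm1
  have hlm : 0 < Real.log m₁ := Real.log_pos (by exact_mod_cast (by omega : 1 < m₁))
  have hbd0 : 0 ≤ 40 * δ / Real.log m₁ + C * (80 + 20 * L) / Real.log w ^ A := by
    have : 0 ≤ 80 + 20 * L := by linarith
    positivity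
  have hEq : Nat.Coprime (d * n) q := D_cop_q hdn hq hqw
  by_cases hc1 : d * m₁ ≡ α [MOD q]
  swap
  · rw [Finset.sum_eq_zero]
    · rw [abs_zero]; exact hbd0
    · intro p _
      unfold TT
      rw [if_neg (fun h => hc1 h.2.1), mul_zero]
  have hα : Nat.Coprime α q := by
    have h1 := D_cop_q hdm hq hqw
    have h2 := Nat.ModEq.gcd_eq hc1
    unfold Nat.Coprime at h1 ⊢
    rw [← h2]
    exact h1
  obtain ⟨β, hβ, hβp⟩ := class_ex hq hEq hα
  obtain ⟨N1, N2, w1, w2, w3, w4, w5⟩ := window (y := y) hρ hρ2 (D := d * m₁) (E := d * n)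
    (by omega : 1 ≤ w) (Nat.mul_pos d0 m0) (Nat.mul_pos d0 n0)
  have dR : (0 : ℝ) < d := by exact_mod_cast d0
  have nR : (0 : ℝ) < n := by exact_mod_cast n0
  have mR : (0 : ℝ) < m₁ := by exact_mod_cast m0
  have n1R : (1 : ℝ) ≤ n := by exact_mod_cast n0
  have hln : 0 ≤ Real.log n := Real.log_nonneg n1R
  obtain ⟨c, hc⟩ : ∃ c, c = Real.log m₁ - Real.log n := ⟨_, rfl⟩
  obtain ⟨Ψ, hΨ⟩ : ∃ Ψ : ℝ → ℝ, Ψ = fun t => kk g (c - t) / (Real.log n + t) := ⟨_, rfl⟩
  have hN1w : Real.log w ≤ Real.log N1 :=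
    Real.log_le_log (by exact_mod_cast (by omega : 0 < w)) (by exact_mod_cast w1)
  have N1R : (0 : ℝ) < N1 := by exact_mod_cast (by omega : 0 < N1)
  -- the sum
  have e1 : ∑ p ∈ (Ioc w y).filter Nat.Prime, Real.log p / (p * Real.log ((n * p : ℕ) : ℝ)) *
      TT g ρ q α (d * m₁) (d * (n * p)) =
      ∑ p ∈ (Ioc N1 N2).filter (fun p => p.Prime ∧ p ≡ β [MOD q]),
        Real.log p / p * Ψ (Real.log p) := by
    rw [Finset.sum_filter, Finset.sum_filter]
    have e2 : ∑ p ∈ Ioc w y, (if p.Prime then Real.log p / (p * Real.log ((n * p : ℕ) : ℝ)) *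
        TT g ρ q α (d * m₁) (d * (n * p)) else 0) =
        ∑ p ∈ (Ioc w y).filter (fun p => jw ρ (d * m₁) = jw ρ (d * n * p)),
          if p.Prime ∧ p ≡ β [MOD q] then Real.log p / p * Ψ (Real.log p) else 0 := by
      rw [Finset.sum_filter]
      refine Finset.sum_congr rfl fun p hp => ?_
      rw [mem_Ioc] at hp
      by_cases hpp : p.Prime
      · rw [if_pos hpp]
        unfold TT
        rw [← mul_assoc d n p]
        by_cases hj : jw ρ (d * m₁) = jw ρ (d * n * p)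
        · rw [if_pos hj]
          by_cases hb : p ≡ β [MOD q]
          · have hcond : jw ρ (d * m₁) = jw ρ (d * n * p) ∧ d * m₁ ≡ α [MOD q] ∧
                d * n * p ≡ α [MOD q] := ⟨hj, hc1, (hβp p).2 hb⟩
            rw [if_pos hcond, if_pos ⟨hpp, hb⟩, hΨ]
            have pR : (0 : ℝ) < p := by exact_mod_cast hpp.pos
            have l1 : Real.log ((d * m₁ : ℕ) : ℝ) - Real.log ((d * n * p : ℕ) : ℝ) =
                c - Real.log p := by
              push_cast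
              rw [Real.log_mul dR.ne' mR.ne', Real.log_mul (by positivity) pR.ne',
                Real.log_mul dR.ne' nR.ne', hc]
              ring
            have l2 : Real.log ((n * p : ℕ) : ℝ) = Real.log n + Real.log p := by
              push_cast
              rw [Real.log_mul nR.ne' pR.ne']
            rw [l1, l2]
            have l3 : 0 < Real.log n + Real.log p := by
              have : 0 < Real.log p := Real.log_pos (by exact_mod_cast hpp.one_lt)
              linarith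
            field_simp
          · rw [if_neg (fun hh => hb ((hβp p).1 hh.2.2)), if_neg (fun hh => hb hh.2), mul_zero]
        · rw [if_neg hj, if_neg (fun hh => hj hh.1), mul_zero]
      · rw [if_neg hpp]
        simp [hpp]
    rw [e2]
    refine Finset.sum_congr ?_ fun _ _ => rfl
    ext p
    rw [mem_filter, mem_Ioc, mem_Ioc, ← w5 p, and_assoc]
  rw [e1]
  -- PS
  have hden : ∀ s, Real.log N1 ≤ s → 1 ≤ Real.log n + s := fun s hs => by linarith
  have hps := hPS N1 N2 β w1 w2 w3 hβ Ψ 40 (20 * L + 40) (by linarith [h.L1]) (fun s hs _ => by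
      have h1 := hden s hs
      rw [hΨ]
      simp only
      rw [abs_div, abs_of_pos (by linarith : 0 < Real.log n + s)]
      rw [div_le_iff₀ (by linarith)]
      have := h.kk_bd (c - s)
      nlinarith) (fun s s' hs _ hs' _ => by
      have h1 := hden s hs
      have h2 := hden s' hs'
      rw [hΨ]
      simp only
      have h3 : kk g (c - s) / (Real.log n + s) - kk g (c - s') / (Real.log n + s') =
          (kk g (c - s) - kk g (c - s')) / (Real.log n + s) +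
            kk g (c - s') * (s' - s) / ((Real.log n + s) * (Real.log n + s')) := by
        have h4 : Real.log n + s ≠ 0 := by linarith
        have h5 : Real.log n + s' ≠ 0 := by linarith
        field_simp
        ring
      rw [h3]
      refine (abs_add_le _ _).trans ?_
      rw [abs_div, abs_div, abs_mul, abs_of_pos (by linarith : 0 < Real.log n + s),
        abs_of_pos (by nlinarith : 0 < (Real.log n + s) * (Real.log n + s'))]
      have h6 := h.kk_lip (c - s) (c - s')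
      rw [show c - s - (c - s') = s' - s by ring] at h6
      have h7 := h.kk_bd (c - s')
      have h8 : |s' - s| = |s - s'| := abs_sub_comm _ _
      rw [h8] at h6 ⊢
      have h9 : |kk g (c - s) - kk g (c - s')| / (Real.log n + s) ≤ 20 * L * |s - s'| :=
        (div_le_self (abs_nonneg _) h1).trans h6
      have h10 : |kk g (c - s')| * |s - s'| / ((Real.log n + s) * (Real.log n + s')) ≤
          40 * |s - s'| := by
        refine (div_le_self (by positivity) (by nlinarith)).trans ?_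
        exact mul_le_mul_of_nonneg_right h7 (abs_nonneg _)
      linarith)
  have hlN : Real.log N1 ≤ Real.log N2 := Real.log_le_log N1R (by exact_mod_cast w2)
  have hwt := h.kk_wt (c := c) (u := Real.log n) hlN (by linarith [hden _ le_rfl]) hδ
  have hlow : Real.log m₁ / 2 ≤ Real.log n + Real.log N1 := by
    have h1 : (m₁ : ℝ) ≤ 4 * (n * N1) := by
      have : (d : ℝ) * m₁ ≤ d * (4 * (n * N1)) := by
        push_cast at w4
        nlinarith
      exact le_of_mul_le_mul_left this dR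
    have h2 : (16 : ℝ) ≤ m₁ := by exact_mod_cast (by omega : 16 ≤ m₁)
    rw [← Real.log_mul nR.ne' N1R.ne']
    have h3 : Real.log (m₁ : ℝ) ≤ Real.log (4 * (n * N1)) := Real.log_le_log mR h1
    rw [Real.log_mul (by norm_num) (by positivity)] at h3
    have h4 : Real.log 16 ≤ Real.log m₁ := Real.log_le_log (by norm_num) h2
    have h5 : Real.log 16 = 2 * Real.log 4 := by
      rw [show (16 : ℝ) = 4 ^ 2 by norm_num, Real.log_pow]
      norm_num
    linarith
  have hint : |1 / (Nat.totient q : ℝ) * ∫ s in (Real.log N1)..(Real.log N2), Ψ s| ≤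
      40 * δ / Real.log m₁ := by
    have hφ : (1 : ℝ) ≤ Nat.totient q := by exact_mod_cast Nat.totient_pos.2 (by omega)
    rw [abs_mul, hΨ]
    have h1 : |1 / (Nat.totient q : ℝ)| ≤ 1 := by
      rw [abs_of_pos (by positivity), div_le_one (by linarith)]
      exact hφ
    have h2 : 20 * δ / (Real.log n + Real.log N1) ≤ 40 * δ / Real.log m₁ := by
      rw [div_le_div_iff₀ (by linarith) hlm]
      nlinarith
    calc |1 / (Nat.totient q : ℝ)| * |∫ s in (Real.log N1)..(Real.log N2), kk g (c - s) / (Real.log n + s)|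
        ≤ 1 * (20 * δ / (Real.log n + Real.log N1)) :=
          mul_le_mul h1 hwt (abs_nonneg _) zero_le_one
      _ ≤ 40 * δ / Real.log m₁ := by rw [one_mul]; exact h2
  have hps' : |∑ p ∈ (Ioc N1 N2).filter (fun p => p.Prime ∧ p ≡ β [MOD q]),
      Real.log p / p * Ψ (Real.log p) -
    (1 / (Nat.totient q : ℝ)) * ∫ s in (Real.log N1)..(Real.log N2), Ψ s| ≤
      C * (80 + 20 * L) / Real.log w ^ A := by
    refine hps.trans (le_of_eq ?_)
    ring
  have := abs_sub_abs_le_abs_sub (∑ p ∈ (Ioc N1 N2).filter (fun p => p.Prime ∧ p ≡ β [MOD q]),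
      Real.log p / p * Ψ (Real.log p))
    ((1 / (Nat.totient q : ℝ)) * ∫ s in (Real.log N1)..(Real.log N2), Ψ s)
  linarith

/-- the sum over the primes which do not divide `d m₁ n` -/
lemma inner_bd {g : ℝ → ℝ} {L s0 δ ρ : ℝ} (h : GG g L s0 δ) (hδ : 0 ≤ δ) (hρ : 1 < ρ)
    (hρ2 : ρ ≤ 2) {q α w y A d m₁ n : ℕ} {C : ℝ} (hC : 0 ≤ C) (hq : 1 ≤ q) (hqw : q ≤ w) (hw : 16 ≤ w)
    (hPS : PSw q A w C) (hN : d * m₁ * n ∣ PP w y) (hm : m₁ ≠ 1) :
    |∑ p ∈ ((Ioc w y).filter Nat.Prime).filter (fun p => d * m₁ * n * p ∣ PP w y),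
      Real.log p / (p * Real.log ((n * p : ℕ) : ℝ)) * TT g ρ q α (d * m₁) (d * (n * p))| ≤
      40 * δ / Real.log m₁ + C * (80 + 20 * L) / Real.log w ^ A +
      40 / Real.log w * ∑ p ∈ ((Ioc w y).filter Nat.Prime).filter (fun p => p ∣ d * m₁ * n),
        Real.log p / p := by
  classical
  have h1 := inner_all (α := α) h hδ hρ hρ2 hC hq hqw hw hPS hN hm
  have hlw : 1 ≤ Real.log w := one_le_log hw
  have hn : n ∣ PP w y := (Dvd.intro_left _ rfl).trans hN
  have n0 := D_pos hn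
  have e1 : ((Ioc w y).filter Nat.Prime).filter (fun p => d * m₁ * n * p ∣ PP w y) =
      ((Ioc w y).filter Nat.Prime).filter (fun p => ¬ p ∣ d * m₁ * n) := by
    refine Finset.filter_congr fun p hp => ?_
    rw [mem_filter, mem_Ioc] at hp
    constructor
    · intro h2 h3
      have h4 := D_cop h2
      exact hp.2.one_lt.ne' (Nat.Coprime.eq_one_of_dvd h4.symm h3)
    · intro h2
      refine D_mul hN (prime_D hp.2 hp.1.1 hp.1.2) ?_
      exact ((Nat.Prime.coprime_iff_not_dvd hp.2).2 h2).symm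
  rw [e1]
  have e2 := Finset.sum_filter_add_sum_filter_not ((Ioc w y).filter Nat.Prime)
    (fun p => p ∣ d * m₁ * n) (fun p => Real.log p / (p * Real.log ((n * p : ℕ) : ℝ)) *
      TT g ρ q α (d * m₁) (d * (n * p)))
  have e3 : |∑ p ∈ ((Ioc w y).filter Nat.Prime).filter (fun p => p ∣ d * m₁ * n),
      Real.log p / (p * Real.log ((n * p : ℕ) : ℝ)) * TT g ρ q α (d * m₁) (d * (n * p))| ≤
      40 / Real.log w * ∑ p ∈ ((Ioc w y).filter Nat.Prime).filter (fun p => p ∣ d * m₁ * n),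
        Real.log p / p := by
    refine (Finset.abs_sum_le_sum_abs _ _).trans ?_
    rw [Finset.mul_sum]
    refine Finset.sum_le_sum fun p hp => ?_
    rw [mem_filter, mem_filter, mem_Ioc] at hp
    have pR : (0 : ℝ) < p := by exact_mod_cast hp.1.2.pos
    have hlp : 0 ≤ Real.log p := Real.log_nonneg (by exact_mod_cast hp.1.2.one_lt.le)
    have hwp : Real.log w ≤ Real.log ((n * p : ℕ) : ℝ) := by
      refine Real.log_le_log (by exact_mod_cast (by omega : 0 < w)) ?_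
      exact_mod_cast (by nlinarith [hp.1.1.1] : w ≤ n * p)
    have hl0 : 0 < Real.log ((n * p : ℕ) : ℝ) := by linarith
    rw [abs_mul, abs_of_nonneg (by positivity)]
    have h2 := TT_bd h ρ q α (d * m₁) (d * (n * p))
    calc Real.log p / (p * Real.log ((n * p : ℕ) : ℝ)) * |TT g ρ q α (d * m₁) (d * (n * p))|
        ≤ Real.log p / (p * Real.log w) * 40 := by
          refine mul_le_mul ?_ h2 (abs_nonneg _) (by positivity)
          gcongr
      _ = 40 / Real.log w * (Real.log p / p) := by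
          field_simp
  have e4 : ∑ p ∈ ((Ioc w y).filter Nat.Prime).filter (fun p => ¬ p ∣ d * m₁ * n),
      Real.log p / (p * Real.log ((n * p : ℕ) : ℝ)) * TT g ρ q α (d * m₁) (d * (n * p)) =
      ∑ p ∈ (Ioc w y).filter Nat.Prime, Real.log p / (p * Real.log ((n * p : ℕ) : ℝ)) *
      TT g ρ q α (d * m₁) (d * (n * p)) -
      ∑ p ∈ ((Ioc w y).filter Nat.Prime).filter (fun p => p ∣ d * m₁ * n),
      Real.log p / (p * Real.log ((n * p : ℕ) : ℝ)) * TT g ρ q α (d * m₁) (d * (n * p)) := by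
    linarith
  rw [e4]
  refine (abs_sub _ _).trans ?_
  linarith

end

/-! ## Part 4: assembly -/

section



/-- swap of the windows -/
lemma windows {g : ℝ → ℝ} {L s0 δ : ℝ} (h : GG g L s0 δ) (ρ : ℝ) (q α M : ℕ) :
    ∑ j ∈ Wn ρ M, (1 / (Nat.totient M : ℝ)) *
      ∫ s : ℝ, (∑ m ∈ (Dv ρ M j).filter (fun m => m ≡ α [MOD q]), g (s - Real.log m)) ^ 2 =
    (1 / (Nat.totient M : ℝ)) * ∑ m ∈ M.divisors, ∑ m' ∈ M.divisors, TT g ρ q α m m' := by
  classical
  rw [← Finset.mul_sum]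
  congr 1
  have h1 : ∀ m ∈ M.divisors, jw ρ m ∈ Wn ρ M := fun m hm => by
    unfold Wn
    exact mem_image_of_mem _ hm
  rw [← Finset.sum_fiberwise_of_maps_to h1]
  refine Finset.sum_congr rfl fun j _ => ?_
  rw [h.sq_int, Finset.sum_filter]
  unfold Dv
  refine Finset.sum_congr rfl fun m hm => ?_
  rw [mem_filter] at hm
  unfold TT
  rw [hm.2, Finset.sum_filter, Finset.sum_filter]
  by_cases hα : m ≡ α [MOD q]
  · rw [if_pos hα]
    refine Finset.sum_congr rfl fun m' _ => ?_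
    by_cases h2 : jw ρ m' = j
    · rw [if_pos h2]
      by_cases h3 : m' ≡ α [MOD q]
      · rw [if_pos h3, if_pos ⟨h2.symm, hα, h3⟩]
      · rw [if_neg h3, if_neg fun h => h3 h.2.2]
    · rw [if_neg h2, if_neg fun h => h2 h.1.symm]
  · rw [if_neg hα]
    symm
    exact Finset.sum_eq_zero fun m' _ => if_neg fun h => hα h.2.1

/-- swap of the divisors -/
lemma swap {w y : ℕ} (T : ℕ → ℕ → ℝ) :
    ∑ M ∈ (PP w y).divisors, (1 / (Nat.totient M : ℝ)) *
      ∑ m ∈ M.divisors, ∑ m' ∈ M.divisors, T m m' =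
    ∑ m ∈ (PP w y).divisors, ∑ m' ∈ (PP w y).divisors, T m m' * ((VW w y)⁻¹ / Nat.lcm m m') := by
  classical
  set D := (PP w y).divisors with hD
  have e0 : ∀ M ∈ D, M.divisors = D.filter (fun m => m ∣ M) := by
    intro M hM
    rw [hD, mD] at hM
    ext m
    rw [mem_filter, hD, mD, Nat.mem_divisors]
    exact ⟨fun h => ⟨h.1.trans hM, h.1⟩, fun h => ⟨h.2, (D_pos hM).ne'⟩⟩
  have e1 : ∀ M ∈ D, (1 / (Nat.totient M : ℝ)) * ∑ m ∈ M.divisors, ∑ m' ∈ M.divisors, T m m' =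
      ∑ m ∈ D, ∑ m' ∈ D, if Nat.lcm m m' ∣ M then T m m' * (1 / (Nat.totient M : ℝ)) else 0 := by
    intro M hM
    rw [e0 M hM, Finset.sum_filter, Finset.mul_sum]
    refine Finset.sum_congr rfl fun m _ => ?_
    by_cases h1 : m ∣ M
    · rw [if_pos h1, Finset.sum_filter, Finset.mul_sum]
      refine Finset.sum_congr rfl fun m' _ => ?_
      by_cases h2 : m' ∣ M
      · rw [if_pos h2, if_pos (Nat.lcm_dvd h1 h2)]
        ring
      · rw [if_neg h2, if_neg fun h => h2 ((Nat.dvd_lcm_right _ _).trans h), mul_zero]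
    · rw [if_neg h1, mul_zero]
      symm
      exact Finset.sum_eq_zero fun m' _ => if_neg fun h => h1 ((Nat.dvd_lcm_left _ _).trans h)
  rw [Finset.sum_congr rfl e1, Finset.sum_comm]
  refine Finset.sum_congr rfl fun m hm => ?_
  rw [Finset.sum_comm]
  refine Finset.sum_congr rfl fun m' hm' => ?_
  rw [hD, mD] at hm hm'
  rw [← sum_phi (Nat.lcm_dvd hm hm'), Finset.mul_sum, Finset.sum_filter]

lemma jw_ne {ρ : ℝ} (hρ : 1 < ρ) (hρ2 : ρ ≤ 2) {d m : ℕ} (hd : 1 ≤ d) (hm : 2 ≤ m) :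
    jw ρ d ≠ jw ρ (d * m) := by
  intro h
  obtain ⟨h1, h2⟩ := (jw_iff (j := jw ρ d) hρ hd).1 rfl
  obtain ⟨h3, h4⟩ := (jw_iff (j := jw ρ d) hρ (Nat.mul_pos hd (by omega))).1 h.symm
  push_cast at h4
  have h5 : (2 : ℝ) ≤ m := by exact_mod_cast hm
  have h6 : (0 : ℝ) < d := by exact_mod_cast hd
  have h7 : 0 < ρ ^ jw ρ d := by positivity
  rw [pow_succ] at h4
  nlinarith

/-- sum over the primes which divide `N` -/
noncomputable def RR (w y N : ℕ) : ℝ :=
  ∑ p ∈ ((Ioc w y).filter Nat.Prime).filter (fun p => p ∣ N), Real.log p / p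

lemma RR_nonneg (w y N : ℕ) : 0 ≤ RR w y N := by
  unfold RR
  exact Finset.sum_nonneg fun p _ => div_nonneg (Real.log_natCast_nonneg _) (Nat.cast_nonneg _)

lemma RR_mul (w y a b c : ℕ) : RR w y (a * b * c) ≤ RR w y a + RR w y b + RR w y c := by
  classical
  unfold RR
  simp only [Finset.sum_filter (fun p => p ∣ _)]
  rw [← Finset.sum_add_distrib, ← Finset.sum_add_distrib]
  refine Finset.sum_le_sum fun p hp => ?_
  rw [mem_filter] at hp
  have h0 : 0 ≤ Real.log p / p := div_nonneg (Real.log_natCast_nonneg _) (Nat.cast_nonneg _)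
  by_cases h1 : p ∣ a * b * c
  · rw [if_pos h1]
    rcases (Nat.Prime.dvd_mul hp.2).1 h1 with h2 | h2
    · rcases (Nat.Prime.dvd_mul hp.2).1 h2 with h3 | h3
      · rw [if_pos h3]
        split_ifs <;> linarith
      · rw [if_pos h3]
        split_ifs <;> linarith
    · rw [if_pos h2]
      split_ifs <;> linarith
  · rw [if_neg h1]
    split_ifs <;> linarith

/-- the mean of `RR` -/
lemma RR_mean {w y : ℕ} (hw : 1 ≤ w) (hwy : w ≤ y) :
    ∑ d ∈ (PP w y).divisors, 1 / (d : ℝ) * RR w y d ≤ (VW w y)⁻¹ * (Real.log y / w) := by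
  classical
  have hV : 0 < (VW w y)⁻¹ := inv_pos.2 (VW_pos w y)
  have e1 : ∑ d ∈ (PP w y).divisors, 1 / (d : ℝ) * RR w y d =
      ∑ p ∈ (Ioc w y).filter Nat.Prime, Real.log p / p *
        ∑ d ∈ (PP w y).divisors.filter (fun d => p ∣ d), 1 / (d : ℝ) := by
    unfold RR
    simp only [Finset.sum_filter (fun p => p ∣ _), Finset.mul_sum]
    rw [Finset.sum_comm]
    refine Finset.sum_congr rfl fun p _ => ?_
    rw [Finset.sum_filter]
    refine Finset.sum_congr rfl fun d _ => ?_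
    split_ifs <;> ring
  rw [e1]
  have e2 : ∀ p ∈ (Ioc w y).filter Nat.Prime, Real.log p / p *
        ∑ d ∈ (PP w y).divisors.filter (fun d => p ∣ d), 1 / (d : ℝ) ≤
        (VW w y)⁻¹ * Real.log y * ((p : ℝ) ^ 2)⁻¹ := by
    intro p hp
    rw [mem_filter, mem_Ioc] at hp
    have h1 := sum_inv_dvd (prime_D hp.2 hp.1.1 hp.1.2)
    have pR : (0 : ℝ) < p := by exact_mod_cast hp.2.pos
    have h2 : Real.log p ≤ Real.log y := Real.log_le_log pR (by exact_mod_cast hp.1.2)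
    have h3 : 0 ≤ Real.log (p : ℝ) := Real.log_natCast_nonneg _
    calc Real.log p / p * ∑ d ∈ (PP w y).divisors.filter (fun d => p ∣ d), 1 / (d : ℝ)
        ≤ Real.log y / p * ((VW w y)⁻¹ / p) := by
          refine mul_le_mul ?_ h1 (Finset.sum_nonneg fun d _ => by positivity)
            (div_nonneg (h3.trans h2) pR.le)
          gcongr
      _ = (VW w y)⁻¹ * Real.log y * ((p : ℝ) ^ 2)⁻¹ := by
          field_simp
  refine (Finset.sum_le_sum e2).trans ?_
  rw [← Finset.mul_sum, mul_assoc]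
  refine mul_le_mul_of_nonneg_left ?_ hV.le
  have h4 : ∑ p ∈ (Ioc w y).filter Nat.Prime, ((p : ℝ) ^ 2)⁻¹ ≤ (w : ℝ)⁻¹ := by
    calc ∑ p ∈ (Ioc w y).filter Nat.Prime, ((p : ℝ) ^ 2)⁻¹ ≤ ∑ p ∈ Ioc w y, ((p : ℝ) ^ 2)⁻¹ :=
          Finset.sum_le_sum_of_subset_of_nonneg (Finset.filter_subset _ _) fun p _ _ => by positivity
      _ ≤ (w : ℝ)⁻¹ - (y : ℝ)⁻¹ := sum_Ioc_inv_sq_le_sub (by omega) hwy
      _ ≤ (w : ℝ)⁻¹ := by
        have : (0 : ℝ) ≤ (y : ℝ)⁻¹ := by positivity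
        linarith
  have h5 : 0 ≤ Real.log (y : ℝ) := Real.log_natCast_nonneg _
  calc Real.log y * ∑ p ∈ (Ioc w y).filter Nat.Prime, ((p : ℝ) ^ 2)⁻¹ ≤ Real.log y * (w : ℝ)⁻¹ :=
        mul_le_mul_of_nonneg_left h4 h5
    _ = Real.log y / w := by rw [div_eq_mul_inv]

/-- the row `m₁ = 1` -/
lemma row1 {g : ℝ → ℝ} {L s0 δ ρ : ℝ} (h : GG g L s0 δ) (hρ : 1 < ρ) (hρ2 : ρ ≤ 2)
    {q α w y d : ℕ} (hw : 16 ≤ w) (hd : d ∣ PP w y) :
    |∑ m₂ ∈ (PP w y).divisors, if d * 1 * m₂ ∣ PP w y then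
      TT g ρ q α (d * 1) (d * m₂) / ((d * 1 * m₂ : ℕ) : ℝ) else 0| ≤ 40 * (1 / (d : ℝ)) := by
  have h1 : (1 : ℕ) ∈ (PP w y).divisors := mD.2 (one_dvd _)
  have dR : (0 : ℝ) < d := by exact_mod_cast D_pos hd
  rw [Finset.sum_eq_single_of_mem 1 h1]
  · rw [mul_one, mul_one, if_pos hd, abs_div, abs_of_pos dR]
    have := TT_bd h ρ q α d d
    rw [div_le_iff₀ dR]
    calc |TT g ρ q α d d| ≤ 40 := this
      _ = 40 * (1 / (d : ℝ)) * d := by field_simp
  · intro m hm hm1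
    rw [mD] at hm
    have h2 := D_gt hm hm1
    have h3 := jw_ne hρ hρ2 (D_pos hd) (by omega : 2 ≤ m)
    have e : TT g ρ q α d (d * m) = 0 := by
      unfold TT
      exact if_neg fun hh => h3 hh.1
    rw [mul_one, e, zero_div, ite_self]

/-- the rows `m₁ ≠ 1` -/
lemma row2 {g : ℝ → ℝ} {L s0 δ ρ : ℝ} (h : GG g L s0 δ) (hδ : 0 ≤ δ) (hρ : 1 < ρ)
    (hρ2 : ρ ≤ 2) {q α w y A d m₁ : ℕ} {C : ℝ} (hC : 0 ≤ C) (hq : 1 ≤ q) (hqw : q ≤ w) (hw : 16 ≤ w)
    (hPS : PSw q A w C) (hd : d ∣ PP w y) (hm1 : m₁ ∣ PP w y) (hm : m₁ ≠ 1) :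
    |∑ m₂ ∈ (PP w y).divisors, if d * m₁ * m₂ ∣ PP w y then
      TT g ρ q α (d * m₁) (d * m₂) / ((d * m₁ * m₂ : ℕ) : ℝ) else 0| ≤
    ∑ n ∈ (PP w y).divisors, 1 / (d : ℝ) * (1 / (m₁ : ℝ)) * (1 / (n : ℝ)) *
      (40 * δ / Real.log m₁ + C * (80 + 20 * L) / Real.log w ^ A +
        40 / Real.log w * (RR w y d + RR w y m₁ + RR w y n)) := by
  classical
  have hL1 := h.L1
  have hlw : 1 ≤ Real.log w := one_le_log hw
  have dR : (0 : ℝ) < d := by exact_mod_cast D_pos hd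
  have mR : (0 : ℝ) < m₁ := by exact_mod_cast D_pos hm1
  have hm1w : w < m₁ := D_gt hm1 hm
  have hlm : 0 < Real.log m₁ := Real.log_pos (by exact_mod_cast (by omega : 1 < m₁))
  have hB : ∀ n : ℕ, 0 ≤ 40 * δ / Real.log m₁ + C * (80 + 20 * L) / Real.log w ^ A +
        40 / Real.log w * (RR w y d + RR w y m₁ + RR w y n) := by
    intro n
    have h1 : 0 ≤ 80 + 20 * L := by linarith
    have h2 := RR_nonneg w y d
    have h3 := RR_nonneg w y m₁
    have h4 := RR_nonneg w y n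
    positivity
  rw [← Finset.sum_filter]
  have e1 : ∑ m ∈ (PP w y).divisors.filter (fun m => d * m₁ * m ∣ PP w y),
      TT g ρ q α (d * m₁) (d * m) / ((d * m₁ * m : ℕ) : ℝ) =
      1 / (d : ℝ) * (1 / (m₁ : ℝ)) *
      ∑ m ∈ (PP w y).divisors.filter (fun m => d * m₁ * m ∣ PP w y), ∑ p ∈ m.primeFactors,
        Real.log p / (m * Real.log m) * TT g ρ q α (d * m₁) (d * m) := by
    rw [Finset.mul_sum]
    refine Finset.sum_congr rfl fun m hmm => ?_
    rw [mem_filter, mD] at hmm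
    have mmR : (0 : ℝ) < m := by exact_mod_cast D_pos hmm.1
    by_cases h1 : m = 1
    · subst h1
      have h3 := jw_ne hρ hρ2 (D_pos hd) (by omega : 2 ≤ m₁)
      unfold TT
      rw [if_neg (fun hh => h3 (by rw [mul_one] at hh; exact hh.1.symm))]
      simp
    · have h2 := D_gt hmm.1 h1
      have hlmm : 0 < Real.log m := Real.log_pos (by exact_mod_cast (by omega : 1 < m))
      rw [← Finset.sum_mul, ← Finset.sum_div, sum_log hmm.1]
      push_cast
      field_simp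
  rw [e1, sum_prime (w := w) (y := y) (c := d * m₁)
    (fun m p => Real.log p / (m * Real.log m) * TT g ρ q α (d * m₁) (d * m)), abs_mul,
    abs_of_pos (by positivity : 0 < 1 / (d : ℝ) * (1 / (m₁ : ℝ)))]
  have e2 : |∑ n ∈ (PP w y).divisors.filter (fun n => d * m₁ * n ∣ PP w y),
      ∑ p ∈ ((Ioc w y).filter Nat.Prime).filter (fun p => d * m₁ * n * p ∣ PP w y),
        Real.log p / (((n * p : ℕ) : ℝ) * Real.log ((n * p : ℕ) : ℝ)) *
          TT g ρ q α (d * m₁) (d * (n * p))| ≤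
      ∑ n ∈ (PP w y).divisors, 1 / (n : ℝ) *
      (40 * δ / Real.log m₁ + C * (80 + 20 * L) / Real.log w ^ A +
        40 / Real.log w * (RR w y d + RR w y m₁ + RR w y n)) := by
    refine (Finset.abs_sum_le_sum_abs _ _).trans ?_
    refine (Finset.sum_le_sum fun n hn => ?_).trans
      (Finset.sum_le_sum_of_subset_of_nonneg (Finset.filter_subset _ _) fun n _ _ =>
        mul_nonneg (by positivity) (hB n))
    rw [mem_filter, mD] at hn
    have nR : (0 : ℝ) < n := by exact_mod_cast D_pos hn.1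
    have h1 := inner_bd (α := α) h hδ hρ hρ2 hC hq hqw hw hPS hn.2 hm
    have h2 : ∑ p ∈ ((Ioc w y).filter Nat.Prime).filter (fun p => d * m₁ * n * p ∣ PP w y),
        Real.log p / (((n * p : ℕ) : ℝ) * Real.log ((n * p : ℕ) : ℝ)) *
          TT g ρ q α (d * m₁) (d * (n * p)) =
        1 / (n : ℝ) * ∑ p ∈ ((Ioc w y).filter Nat.Prime).filter (fun p => d * m₁ * n * p ∣ PP w y),
        Real.log p / (p * Real.log ((n * p : ℕ) : ℝ)) * TT g ρ q α (d * m₁) (d * (n * p)) := by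
      rw [Finset.mul_sum]
      refine Finset.sum_congr rfl fun p hp => ?_
      rw [mem_filter, mem_filter] at hp
      have pR : (0 : ℝ) < p := by exact_mod_cast hp.1.2.pos
      have e3 : ((n * p : ℕ) : ℝ) = n * p := by push_cast; rfl
      have hl0 : Real.log ((n * p : ℕ) : ℝ) ≠ 0 := by
        have : 1 < n * p := by
          have := hp.1.2.one_lt
          have := D_pos hn.1
          nlinarith
        exact (Real.log_pos (by exact_mod_cast this)).ne'
      generalize Real.log ((n * p : ℕ) : ℝ) = z at hl0 ⊢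
      rw [e3]
      field_simp
    rw [h2, abs_mul, abs_of_pos (by positivity : 0 < 1 / (n : ℝ))]
    refine mul_le_mul_of_nonneg_left (h1.trans ?_) (by positivity)
    have h3 := RR_mul w y d m₁ n
    have h4 : 40 / Real.log w * RR w y (d * m₁ * n) ≤
        40 / Real.log w * (RR w y d + RR w y m₁ + RR w y n) :=
      mul_le_mul_of_nonneg_left h3 (by positivity)
    unfold RR at h4 ⊢
    linarith
  calc _ ≤ 1 / (d : ℝ) * (1 / (m₁ : ℝ)) * ∑ n ∈ (PP w y).divisors, 1 / (n : ℝ) *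
      (40 * δ / Real.log m₁ + C * (80 + 20 * L) / Real.log w ^ A +
        40 / Real.log w * (RR w y d + RR w y m₁ + RR w y n)) :=
        mul_le_mul_of_nonneg_left e2 (by positivity)
    _ = _ := by
      rw [Finset.mul_sum]
      refine Finset.sum_congr rfl fun n _ => ?_
      ring

lemma triple (D : Finset ℕ) (a e R : ℕ → ℝ) (E κ : ℝ) :
    ∑ d ∈ D, ∑ m ∈ D, ∑ n ∈ D, a d * a m * a n * (e m + E + κ * (R d + R m + R n)) =
      (∑ d ∈ D, a d) ^ 2 * (∑ d ∈ D, a d * e d) + (∑ d ∈ D, a d) ^ 3 * E +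
        3 * κ * (∑ d ∈ D, a d) ^ 2 * ∑ d ∈ D, a d * R d := by
  obtain ⟨V, hV⟩ : ∃ V, V = ∑ d ∈ D, a d := ⟨_, rfl⟩
  obtain ⟨W, hW⟩ : ∃ W, W = ∑ d ∈ D, a d * R d := ⟨_, rfl⟩
  obtain ⟨Y, hY⟩ : ∃ Y, Y = ∑ d ∈ D, a d * e d := ⟨_, rfl⟩
  rw [← hV, ← hW, ← hY]
  have h1 : ∀ d m, ∑ n ∈ D, a d * a m * a n * (e m + E + κ * (R d + R m + R n)) =
      a d * a m * ((e m + E + κ * (R d + R m)) * V + κ * W) := by
    intro d m
    rw [hV, hW, Finset.mul_sum, Finset.mul_sum, ← Finset.sum_add_distrib, Finset.mul_sum]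
    refine Finset.sum_congr rfl fun n _ => ?_
    ring
  simp_rw [h1]
  have h2 : ∀ d, ∑ m ∈ D, a d * a m * ((e m + E + κ * (R d + R m)) * V + κ * W) =
      a d * (Y * V + ((E + κ * R d) * V + κ * W) * V + κ * W * V) := by
    intro d
    have h3 : a d * (Y * V + ((E + κ * R d) * V + κ * W) * V + κ * W * V) =
        (a d * V) * Y + (a d * ((E + κ * R d) * V + κ * W)) * V + (a d * κ * V) * W := by ring
    rw [h3]
    conv_rhs => rw [hY]
    conv_rhs =>
      congr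
      · congr
        · skip
        · arg 2
          rw [hV]
      · arg 2
        rw [hW]
    rw [Finset.mul_sum, Finset.mul_sum, Finset.mul_sum, ← Finset.sum_add_distrib,
      ← Finset.sum_add_distrib]
    refine Finset.sum_congr rfl fun m _ => ?_
    ring
  simp_rw [h2]
  have h4 : ∀ d, a d * (Y * V + ((E + κ * R d) * V + κ * W) * V + κ * W * V) =
      (Y * V + E * V ^ 2 + 2 * κ * W * V) * a d + (κ * V ^ 2) * (a d * R d) := fun d => by ring
  simp_rw [h4]
  rw [Finset.sum_add_distrib, ← Finset.mul_sum, ← Finset.mul_sum, ← hV, ← hW]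
  ring

/-- everything but the constants -/
lemma main {g : ℝ → ℝ} {L s0 δ ρ : ℝ} (h : GG g L s0 δ) (hδ : 0 ≤ δ) (hρ : 1 < ρ)
    (hρ2 : ρ ≤ 2) {q α w y A : ℕ} {C : ℝ} (hC : 0 ≤ C) (hq : 1 ≤ q) (hqw : q ≤ w) (hw : 16 ≤ w)
    (hwy : w ≤ y) (hPS : PSw q A w C) :
    VW w y ^ 2 * ∑ M ∈ (PP w y).divisors, ∑ j ∈ Wn ρ M, (1 / (Nat.totient M : ℝ)) *
      ∫ s : ℝ, (∑ m ∈ (Dv ρ M j).filter (fun m => m ≡ α [MOD q]), g (s - Real.log m)) ^ 2 ≤
    40 + (VW w y)⁻¹ * (40 * δ * ∑ m ∈ (PP w y).divisors.filter (fun m => m ≠ 1),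
        1 / ((m : ℝ) * Real.log m)) +
      (VW w y)⁻¹ ^ 2 * (C * (80 + 20 * L) / Real.log w ^ A) +
      3 * (40 / Real.log w) * (VW w y)⁻¹ * ((VW w y)⁻¹ * (Real.log y / w)) := by
  classical
  have hV := VW_pos w y
  have hL1 := h.L1
  have hlw : 1 ≤ Real.log w := one_le_log hw
  obtain ⟨E, hE⟩ : ∃ E, E = C * (80 + 20 * L) / Real.log w ^ A := ⟨_, rfl⟩
  obtain ⟨κ, hκ⟩ : ∃ κ, κ = 40 / Real.log w := ⟨_, rfl⟩
  have hE0 : 0 ≤ E := by
    rw [hE]
    have : 0 ≤ 80 + 20 * L := by linarith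
    positivity
  have hκ0 : 0 ≤ κ := by rw [hκ]; positivity
  obtain ⟨e, he⟩ : ∃ e : ℕ → ℝ, e = fun m : ℕ => if m = 1 then 0 else 40 * δ / Real.log m := ⟨_, rfl⟩
  have he0 : ∀ m, 0 ≤ e m := by
    intro m
    rw [he]
    simp only
    split_ifs
    · exact le_rfl
    · exact div_nonneg (by linarith) (Real.log_natCast_nonneg _)
  set D := (PP w y).divisors with hD
  -- the exact identity
  have s1 : VW w y ^ 2 * ∑ M ∈ D, ∑ j ∈ Wn ρ M, (1 / (Nat.totient M : ℝ)) *
      ∫ s : ℝ, (∑ m ∈ (Dv ρ M j).filter (fun m => m ≡ α [MOD q]), g (s - Real.log m)) ^ 2 =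
      VW w y * ∑ d ∈ D, ∑ m₁ ∈ D, ∑ m₂ ∈ D, (if d * m₁ * m₂ ∣ PP w y then
        TT g ρ q α (d * m₁) (d * m₂) / ((d * m₁ * m₂ : ℕ) : ℝ) else 0) := by
    rw [Finset.sum_congr rfl fun M _ => windows h ρ q α M, hD, swap,
      ← sum_pairs (w := w) (y := y) (fun m m' l => TT g ρ q α m m' / (l : ℝ)), Finset.mul_sum,
      Finset.mul_sum]
    refine Finset.sum_congr rfl fun m _ => ?_
    rw [Finset.mul_sum, Finset.mul_sum]
    refine Finset.sum_congr rfl fun m' _ => ?_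
    field_simp
  -- the rows
  have s2 : ∀ d ∈ D, |∑ m₁ ∈ D, ∑ m₂ ∈ D, (if d * m₁ * m₂ ∣ PP w y then
        TT g ρ q α (d * m₁) (d * m₂) / ((d * m₁ * m₂ : ℕ) : ℝ) else 0)| ≤
      40 * (1 / (d : ℝ)) + ∑ m ∈ D, ∑ n ∈ D, 1 / (d : ℝ) * (1 / (m : ℝ)) * (1 / (n : ℝ)) *
        (e m + E + κ * (RR w y d + RR w y m + RR w y n)) := by
    intro d hd
    rw [hD, mD] at hd
    have hnn : ∀ m n : ℕ, 0 ≤ 1 / (d : ℝ) * (1 / (m : ℝ)) * (1 / (n : ℝ)) *
        (e m + E + κ * (RR w y d + RR w y m + RR w y n)) := by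
      intro m n
      have h2 := RR_nonneg w y d
      have h3 := RR_nonneg w y m
      have h4 := RR_nonneg w y n
      have h5 := he0 m
      positivity
    have h1D : (1 : ℕ) ∈ D := mD.2 (one_dvd _)
    refine (Finset.abs_sum_le_sum_abs _ _).trans ?_
    rw [← Finset.add_sum_erase _ _ h1D]
    refine add_le_add (row1 h hρ hρ2 hw hd) ?_
    refine (Finset.sum_le_sum fun m hm => ?_).trans
      (Finset.sum_le_sum_of_subset_of_nonneg (Finset.erase_subset _ _) fun m _ _ =>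
        Finset.sum_nonneg fun n _ => hnn m n)
    rw [mem_erase, hD, mD] at hm
    have h3 := row2 (α := α) h hδ hρ hρ2 hC hq hqw hw hPS hd hm.2 hm.1
    rw [← hE, ← hκ] at h3
    have h4 : e m = 40 * δ / Real.log m := by
      rw [he]
      simp only
      rw [if_neg hm.1]
    rw [h4]
    exact h3
  have s3 : |∑ d ∈ D, ∑ m₁ ∈ D, ∑ m₂ ∈ D, (if d * m₁ * m₂ ∣ PP w y then
        TT g ρ q α (d * m₁) (d * m₂) / ((d * m₁ * m₂ : ℕ) : ℝ) else 0)| ≤
      40 * (∑ d ∈ D, 1 / (d : ℝ)) +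
        ((∑ d ∈ D, 1 / (d : ℝ)) ^ 2 * (∑ d ∈ D, 1 / (d : ℝ) * e d) +
        (∑ d ∈ D, 1 / (d : ℝ)) ^ 3 * E +
        3 * κ * (∑ d ∈ D, 1 / (d : ℝ)) ^ 2 * ∑ d ∈ D, 1 / (d : ℝ) * RR w y d) := by
    refine (Finset.abs_sum_le_sum_abs _ _).trans ((Finset.sum_le_sum s2).trans ?_)
    rw [Finset.sum_add_distrib, ← Finset.mul_sum,
      triple D (fun d => 1 / (d : ℝ)) e (RR w y) E κ]
  obtain ⟨V1, hV1⟩ : ∃ V1, V1 = ∑ d ∈ D, 1 / (d : ℝ) := ⟨_, rfl⟩
  obtain ⟨Q, hQ⟩ : ∃ Q, Q = ∑ d ∈ D, 1 / (d : ℝ) * e d := ⟨_, rfl⟩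
  obtain ⟨X, hX⟩ : ∃ X, X = ∑ d ∈ D, 1 / (d : ℝ) * RR w y d := ⟨_, rfl⟩
  have hV10 : 0 ≤ V1 := by rw [hV1]; exact Finset.sum_nonneg fun d _ => by positivity
  have hQ0 : 0 ≤ Q := by
    rw [hQ]
    exact Finset.sum_nonneg fun d _ => mul_nonneg (by positivity) (he0 d)
  have hX0 : 0 ≤ X := by
    rw [hX]
    exact Finset.sum_nonneg fun d _ => mul_nonneg (by positivity) (RR_nonneg _ _ _)
  have hU : V1 ≤ (VW w y)⁻¹ := by rw [hV1]; exact sum_inv w y
  have hXb : X ≤ (VW w y)⁻¹ * (Real.log y / w) := by rw [hX]; exact RR_mean (by omega) hwy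
  have hQe : Q = 40 * δ * ∑ m ∈ D.filter (fun m => m ≠ 1), 1 / ((m : ℝ) * Real.log m) := by
    rw [hQ, Finset.mul_sum, Finset.sum_filter]
    refine Finset.sum_congr rfl fun m hm => ?_
    rw [hD, mD] at hm
    rw [he]
    simp only
    by_cases h1 : m = 1
    · rw [if_pos h1, if_neg (by simpa using h1), mul_zero]
    · rw [if_neg h1, if_pos h1]
      have h2 := D_gt hm h1
      have hlmm : 0 < Real.log m := Real.log_pos (by exact_mod_cast (by omega : 1 < m))
      have mmR : (0 : ℝ) < m := by exact_mod_cast D_pos hm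
      field_simp
  rw [← hV1, ← hQ, ← hX] at s3
  rw [s1, ← hQe, ← hE, ← hκ]
  have hVV : VW w y * V1 ≤ 1 := by
    calc VW w y * V1 ≤ VW w y * (VW w y)⁻¹ := mul_le_mul_of_nonneg_left hU hV.le
      _ = 1 := mul_inv_cancel₀ hV.ne'
  have hVV0 : 0 ≤ VW w y * V1 := mul_nonneg hV.le hV10
  have hUp : 0 < (VW w y)⁻¹ := inv_pos.2 hV
  have t1 : VW w y * (V1 ^ 2 * Q) ≤ (VW w y)⁻¹ * Q := by
    calc VW w y * (V1 ^ 2 * Q) = (VW w y * V1) * (V1 * Q) := by ring
      _ ≤ 1 * ((VW w y)⁻¹ * Q) := by gcongr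
      _ = (VW w y)⁻¹ * Q := one_mul _
  have t2 : VW w y * (V1 ^ 3 * E) ≤ (VW w y)⁻¹ ^ 2 * E := by
    calc VW w y * (V1 ^ 3 * E) = (VW w y * V1) * (V1 ^ 2 * E) := by ring
      _ ≤ 1 * ((VW w y)⁻¹ ^ 2 * E) := by gcongr
      _ = (VW w y)⁻¹ ^ 2 * E := one_mul _
  have t3 : VW w y * (3 * κ * V1 ^ 2 * X) ≤
      3 * κ * (VW w y)⁻¹ * ((VW w y)⁻¹ * (Real.log y / w)) := by
    calc VW w y * (3 * κ * V1 ^ 2 * X) = (VW w y * V1) * (3 * κ * V1 * X) := by ring
      _ ≤ 1 * (3 * κ * (VW w y)⁻¹ * ((VW w y)⁻¹ * (Real.log y / w))) := by gcongr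
      _ = 3 * κ * (VW w y)⁻¹ * ((VW w y)⁻¹ * (Real.log y / w)) := one_mul _
  calc VW w y * ∑ d ∈ D, ∑ m₁ ∈ D, ∑ m₂ ∈ D, (if d * m₁ * m₂ ∣ PP w y then
        TT g ρ q α (d * m₁) (d * m₂) / ((d * m₁ * m₂ : ℕ) : ℝ) else 0)
      ≤ VW w y * (40 * V1 + (V1 ^ 2 * Q + V1 ^ 3 * E + 3 * κ * V1 ^ 2 * X)) :=
        mul_le_mul_of_nonneg_left ((le_abs_self _).trans s3) hV.le
    _ = 40 * (VW w y * V1) + VW w y * (V1 ^ 2 * Q) + VW w y * (V1 ^ 3 * E) +
        VW w y * (3 * κ * V1 ^ 2 * X) := by ring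
    _ ≤ 40 + (VW w y)⁻¹ * Q + (VW w y)⁻¹ ^ 2 * E +
        3 * κ * (VW w y)⁻¹ * ((VW w y)⁻¹ * (Real.log y / w)) := by linarith

/-- powers of the logarithm -/
lemma log_pow_le (K : ℕ) : ∃ w1 : ℕ, ∀ w : ℕ, w1 ≤ w → Real.log w ^ K ≤ w := by
  have h1 : (fun x : ℝ => Real.log x ^ K) =o[Filter.atTop] fun x : ℝ => x :=
    Real.isLittleO_pow_log_id_atTop
  have h2 := (h1.bound (c := 1) one_pos)
  have h3 := (tendsto_natCast_atTop_atTop (R := ℝ)).eventually h2
  obtain ⟨w1, hw1⟩ := Filter.eventually_atTop.1 h3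
  refine ⟨w1, fun w hw => ?_⟩
  have h4 := hw1 w hw
  rw [one_mul, Real.norm_eq_abs, Real.norm_eq_abs, abs_of_nonneg (Nat.cast_nonneg (α := ℝ) w)] at h4
  exact (le_abs_self _).trans h4

/-- QB. -/
theorem t_QB (h1 : S_QBA) (h2 : S_PS) (h3 : S_MER) : S_QB := by
  intro q K hq
  obtain ⟨C1, hC1, h1⟩ := h1
  obtain ⟨C2, hC2, w0, hw0, h2⟩ := h2 q (3 * K) hq
  obtain ⟨C3, hC3, h3, -⟩ := h3
  obtain ⟨w1, hw1⟩ := log_pow_le (3 * K)
  refine ⟨40 + 40 * C1 * C3 + 100 * C2 * C3 ^ 2 + 120 * C3 ^ 2, by positivity,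
    w0 + w1 + q + 16, fun w y hw hwy hyK L s0 ρ g α hL1 hLK hρ hρ2 hg1 hg2 hg3 hg4 => ?_⟩
  have hlw : 1 ≤ Real.log w := one_le_log (by omega)
  have hwR : (0 : ℝ) < w := by exact_mod_cast (by omega : 0 < w)
  have hlyw : Real.log w ≤ Real.log y := Real.log_le_log hwR (by exact_mod_cast hwy)
  have hly : 1 ≤ Real.log y := hlw.trans hlyw
  have hlly : 0 ≤ Real.log (Real.log y) := Real.log_nonneg hly
  have hG : GG g L s0 (1 / Real.log y) := ⟨hL1, hg1, hg2, hg3, hg4⟩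
  have hm := main (α := α) (q := q) (A := 3 * K) hG (by positivity) hρ hρ2 hC2.le hq (by omega)
    (by omega : 16 ≤ w) hwy (fun N1 N2 β => h2 w N1 N2 β (by omega))
  refine hm.trans ?_
  have hQ := h1 w y (by omega) hwy (by omega)
  have hM := (h3 w y (by omega) hwy).2
  have hU : 0 < (VW w y)⁻¹ := inv_pos.2 (VW_pos w y)
  set U := (VW w y)⁻¹ with hUd
  set l := Real.log w with hl
  set z := Real.log y with hz
  have l0 : 0 < l := by linarith
  have z0 : 0 < z := by linarith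
  have hUz : U ≤ C3 * z := hM.trans (mul_le_mul_of_nonneg_left (div_le_self z0.le hlw) (by linarith))
  have hC3' : 0 < C3 := by linarith
  -- first
  have a1 : U * (40 * (1 / z) * ∑ m ∈ (PP w y).divisors.filter (fun m => m ≠ 1),
        1 / ((m : ℝ) * Real.log m)) ≤ 40 * C1 * C3 * (1 + Real.log z) := by
    calc U * (40 * (1 / z) * ∑ m ∈ (PP w y).divisors.filter (fun m => m ≠ 1),
        1 / ((m : ℝ) * Real.log m)) ≤ (C3 * z) * (40 * (1 / z) * (C1 * (1 + Real.log z) / l)) := by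
          have : 0 ≤ ∑ m ∈ (PP w y).divisors.filter (fun m => m ≠ 1),
              1 / ((m : ℝ) * Real.log m) := Finset.sum_nonneg fun m _ => by
            have := Real.log_natCast_nonneg m
            positivity
          gcongr
      _ = 40 * C1 * C3 * (1 + Real.log z) / l := by field_simp
      _ ≤ 40 * C1 * C3 * (1 + Real.log z) := div_le_self (by positivity) hlw
  -- second
  have a2 : U ^ 2 * (C2 * (80 + 20 * L) / l ^ (3 * K)) ≤ 100 * C2 * C3 ^ 2 := by
    have b1 : z ≤ l ^ K := hyK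
    calc U ^ 2 * (C2 * (80 + 20 * L) / l ^ (3 * K))
        ≤ (C3 * l ^ K) ^ 2 * (C2 * (100 * l ^ K) / l ^ (3 * K)) := by
          have c1 : U ≤ C3 * l ^ K := hUz.trans (mul_le_mul_of_nonneg_left b1 hC3'.le)
          have c2 : 80 + 20 * L ≤ 100 * l ^ K := by linarith
          gcongr
      _ = 100 * C2 * C3 ^ 2 := by
          have : l ^ (3 * K) = l ^ K * l ^ K * l ^ K := by ring
          rw [this]
          have c3 : l ^ K ≠ 0 := by positivity
          field_simp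
  -- third
  have a3 : 3 * (40 / l) * U * (U * (z / w)) ≤ 120 * C3 ^ 2 := by
    have b1 : z ≤ l ^ K := hyK
    have b2 : 40 / l ≤ 40 := div_le_self (by norm_num) hlw
    have b3 : l ^ (3 * K) ≤ w := hw1 w (by omega)
    have b4 : z ^ 3 ≤ w := by
      refine le_trans ?_ b3
      rw [mul_comm, pow_mul]
      exact pow_le_pow_left₀ z0.le b1 3
    calc 3 * (40 / l) * U * (U * (z / w)) ≤ 3 * 40 * (C3 * z) * ((C3 * z) * (z / w)) := by
          gcongr
      _ = 120 * C3 ^ 2 * (z ^ 3 / w) := by ring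
      _ ≤ 120 * C3 ^ 2 * 1 := by
          have : z ^ 3 / w ≤ 1 := by
            rw [div_le_one hwR]
            exact b4
          gcongr
      _ = 120 * C3 ^ 2 := mul_one _
  have a4 : (0 : ℝ) ≤ (40 + 100 * C2 * C3 ^ 2 + 120 * C3 ^ 2) * Real.log z := by positivity
  nlinarith

end

end Pool.Agent.N99.QL
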